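import Pool.Agent.Q215.SDs.Defs

set_option autoImplicit false
set_option linter.unusedSectionVars false

/-!
# The number of bad components which a flip destroys (after `Q150/SD/Count.lean` of helper150)
-/

namespace Pool.Agent.Q215.SDs

open Finset Classical
open Pool.Agent.Q215.SD (IsFlip isFlip_mono isFlip_symm isFlip_refl isFlip_of_fintype isFlip_trans
  isFlip_congr comps_mono_sub comps_of_sub comps_of_closed comps_disj comps_biUnion comps_congr'
  map_symm_map tr mem_tr)
open Pool.Agent.TH87.RVE (comps comp mem_comp mem_comps comp_self comp_sub comp_eq comp_of_mem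
  comps_sub comps_nonempty comp_mem_comps comp_closed rch_mono rch_closed comp_closed_eq
  comps_comp comps_eq_union comps_erase comps_map comp_map rch RR rch_symm rch_trans)

variable {V : Type} [Fintype V]

/-- joined vertices have the same component -/
theorem comp_eq_of_adj (K : SimpleGraph V) (W : Finset V) {x y : V} (hx : x ∈ W) (hy : y ∈ W) (h : K.Adj x y) :
    comp K W x = comp K W y :=
  (comp_eq K W x y ((mem_comp K W x y).2 ⟨hy, Relation.ReflTransGen.single ⟨hx, hy, h⟩⟩)).symm

/-- many bad components which meet the same parts become at most `R` components -/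
theorem count_aux (r s : ℕ) (e : ℕ) (R : ℕ) (U : Finset V) (K K' : SimpleGraph V) (f : V → Fin R)
    (M : Fin R → Fin R → Prop)
    (hf : ∀ x ∈ U, ∀ y ∈ U, x ≠ y → (K'.Adj x y ↔ ¬ (K.Adj x y ↔ M (f x) (f y))))
    (h2 : ∀ C ∈ comps K' U, FD r s e K' C) (Q : Finset (Fin R)) (J : Finset (Finset V))
    (h1 : ∀ C ∈ J, ¬ FD r s e K C)
    (hJsub : J ⊆ comps K U) (hJQ : ∀ C ∈ J, C.image f = Q) (hJ3 : 3 ≤ J.card) :
    (comps K' (J.biUnion id)).card ≤ R := by
  set W := J.biUnion id with hW
  have hcW : comps K W = J := comps_biUnion K U J hJsub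
  have hWU : W ⊆ U := by
    intro x hx
    rw [hW, mem_biUnion] at hx
    obtain ⟨C, hC, hx⟩ := hx
    exact comps_sub K U C (hJsub hC) hx
  have hfQ : ∀ x ∈ W, f x ∈ Q := by
    intro x hx
    rw [hW, mem_biUnion] at hx
    obtain ⟨C, hC, hx⟩ := hx
    rw [← hJQ C hC]
    exact mem_image_of_mem f hx
  -- active vertices
  let act : V → Prop := fun x => ∃ q' ∈ Q, M (f x) q'
  have hinact : ∀ x ∈ W, ¬ act x → ∀ y ∈ W, (K'.Adj x y ↔ K.Adj x y) := by
    intro x hx hax y hy
    by_cases hxy : x = y
    · rw [hxy]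
      simp
    rw [hf x (hWU hx) y (hWU hy) hxy]
    have h3 : ¬ M (f x) (f y) := fun h => hax ⟨f y, hfQ y hy, h⟩
    tauto
  have ha : ∀ C ∈ J, ∃ x ∈ C, act x := by
    intro C hC
    by_contra hno
    push Not at hno
    have hCW : C ⊆ W := fun x hx => mem_biUnion.2 ⟨C, hC, hx⟩
    have hag : ∀ x ∈ C, ∀ y ∈ C, (K'.Adj x y ↔ K.Adj x y) := fun x hx y hy =>
      hinact x (hCW hx) (hno x hx) y (hCW hy)
    have h3 : C ∈ comps K' C := by
      rw [comps_congr' K' K C hag, comps_comp K U C (hJsub hC)]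
      exact mem_singleton_self C
    obtain ⟨D, hD, hCD⟩ := comps_mono_sub K' (comps_sub K U C (hJsub hC)) C h3
    exact h1 C hC (FD_congr r s e K' K C hag (FD_mono r s e K' D C hCD (h2 D hD)))
  have hb : ∀ x ∈ W, ∃ a ∈ comp K' W x, act a := by
    intro x hx
    obtain ⟨C, hC, hxC⟩ := mem_biUnion.1 hx
    obtain ⟨a, haC, haa⟩ := ha C hC
    have haW : a ∈ W := mem_biUnion.2 ⟨C, hC, haC⟩
    have h3 : rch K W a x := by
      have h4 : comp K W a = C := comp_of_mem K W C (by rw [hcW]; exact hC) a haC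
      have h5 : x ∈ comp K W a := by rw [h4]; exact hxC
      exact ((mem_comp K W a x).1 h5).2
    let S : Finset V := W.filter (fun y => ∃ b ∈ comp K' W y, act b)
    have hS : ∀ s ∈ S, ∀ t ∈ W, K.Adj s t → t ∈ S := by
      intro s hs t ht hst
      obtain ⟨hsW, b, hb, hbb⟩ := mem_filter.1 hs
      refine mem_filter.2 ⟨ht, ?_⟩
      by_cases hat : act t
      · exact ⟨t, comp_self K' W t ht, hat⟩
      · have h4 := (hinact t ht hat s hsW).2 hst.symm
        refine ⟨b, ?_, hbb⟩
        rw [comp_eq_of_adj K' W ht hsW h4]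
        exact hb
    have haS : a ∈ S := mem_filter.2 ⟨haW, a, comp_self K' W a haW, haa⟩
    exact (mem_filter.1 (rch_closed K W S hS haS h3).1).2
  have hc : ∀ x ∈ W, ∀ x' ∈ W, act x → f x = f x' → comp K' W x = comp K' W x' := by
    intro x hx x' hx' hax hff
    obtain ⟨q', hq', hM'⟩ := hax
    obtain ⟨C, hC, hxC⟩ := mem_biUnion.1 hx
    obtain ⟨C', hC', hxC'⟩ := mem_biUnion.1 hx'
    have h3 : ∃ C'' ∈ J, C'' ≠ C ∧ C'' ≠ C' := by
      by_contra hno
      push Not at hno
      have h4 : J ⊆ {C, C'} := by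
        intro D hD
        rw [mem_insert, mem_singleton]
        by_cases hDC : D = C
        · exact Or.inl hDC
        · exact Or.inr (hno D hD hDC)
      have h5 := (card_le_card h4).trans card_le_two
      omega
    obtain ⟨C'', hC'', hne, hne'⟩ := h3
    have h4 : q' ∈ C''.image f := by rw [hJQ C'' hC'']; exact hq'
    obtain ⟨y, hy, hyq⟩ := mem_image.1 h4
    have hyW : y ∈ W := mem_biUnion.2 ⟨C'', hC'', hy⟩
    have h5 : K'.Adj x y := by
      have hxy : x ≠ y := by
        rintro rfl
        exact hne (comps_disj K U _ _ (hJsub hC'') (hJsub hC) x hy hxC)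
      rw [hf x (hWU hx) y (hWU hyW) hxy, hyq]
      intro h6
      have h7 := h6.2 hM'
      have h8 := comp_closed K U C (hJsub hC) x y hxC (hWU hyW) h7
      exact hne (comps_disj K U _ _ (hJsub hC'') (hJsub hC) y hy h8)
    have h5' : K'.Adj x' y := by
      have hxy : x' ≠ y := by
        rintro rfl
        exact hne' (comps_disj K U _ _ (hJsub hC'') (hJsub hC') x' hy hxC')
      rw [hf x' (hWU hx') y (hWU hyW) hxy, hyq, ← hff]
      intro h6
      have h7 := h6.2 hM'
      have h8 := comp_closed K U C' (hJsub hC') x' y hxC' (hWU hyW) h7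
      exact hne' (comps_disj K U _ _ (hJsub hC'') (hJsub hC') y hy h8)
    rw [comp_eq_of_adj K' W hx hyW h5, comp_eq_of_adj K' W hx' hyW h5']
  have h3 : ∀ D : {D // D ∈ comps K' W}, ∃ a ∈ D.1, act a := by
    rintro ⟨D, hD⟩
    obtain ⟨x, hx⟩ := comps_nonempty K' W D hD
    have h4 := hb x (comps_sub K' W D hD hx)
    rw [comp_of_mem K' W D hD x hx] at h4
    exact h4
  choose a ha1 ha2 using h3
  have hinj : Function.Injective fun D : {D // D ∈ comps K' W} => f (a D) := by
    intro D D' h
    have hW1 := comps_sub K' W D.1 D.2 (ha1 D)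
    have hW2 := comps_sub K' W D'.1 D'.2 (ha1 D')
    have h4 := hc _ hW1 _ hW2 (ha2 D) h
    rw [comp_of_mem K' W D.1 D.2 _ (ha1 D), comp_of_mem K' W D'.1 D'.2 _ (ha1 D')] at h4
    exact Subtype.ext h4
  have h4 := Fintype.card_le_of_injective _ hinj
  rw [Fintype.card_coe] at h4
  simpa using h4

theorem count_fib (R : ℕ) (f : V → Fin R) (J : Finset (Finset V)) (n : ℕ)
    (h : ∀ Q : Finset (Fin R), (J.filter (fun C => C.image f = Q)).card ≤ n) :
    J.card ≤ 2 ^ R * n := by
  have h3 := card_le_mul_card_image (f := fun C : Finset V => C.image f) J n (fun Q _ => h Q)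
  have h4 : (J.image fun C => C.image f).card ≤ 2 ^ R := by
    refine (card_le_univ _).trans ?_
    simp
  calc J.card ≤ n * (J.image fun C => C.image f).card := h3
    _ ≤ n * 2 ^ R := Nat.mul_le_mul_left _ h4
    _ = 2 ^ R * n := mul_comm _ _

theorem count_zero (r s : ℕ) (R : ℕ) (U : Finset V) (K K' : SimpleGraph V)
    (hfl : IsFlip R U K K') (h1 : ∀ C ∈ comps K U, ¬ FD r s 0 K C)
    (h2 : ∀ C ∈ comps K' U, FD r s 0 K' C) : (comps K U).card ≤ gg r 0 R := by
  obtain ⟨f, M, hM, hf⟩ := hfl
  apply count_fib R f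
  intro Q
  set J := (comps K U).filter (fun C => C.image f = Q) with hJ
  by_contra hcon
  push Not at hcon
  have hJ3 : 3 ≤ J.card := by omega
  have hJsub : J ⊆ comps K U := filter_subset _ _
  have hJQ : ∀ C ∈ J, C.image f = Q := fun C hC => (mem_filter.1 hC).2
  have hd := count_aux r s 0 R U K K' f M hf h2 Q J (fun C hC => h1 C (hJsub hC)) hJsub hJQ hJ3
  set W := J.biUnion id with hW
  have hWU : W ⊆ U := by
    intro x hx
    rw [hW, mem_biUnion] at hx
    obtain ⟨C, hC, hx⟩ := hx
    exact comps_sub K U C (hJsub hC) hx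
  -- the number of the vertices of `W`
  have g1 : W.card ≤ R * s := by
    have g2 : W ⊆ (comps K' W).biUnion id := by
      intro x hx
      rw [mem_biUnion]
      exact ⟨comp K' W x, comp_mem_comps K' W x hx, comp_self K' W x hx⟩
    refine (card_le_card g2).trans ((card_biUnion_le).trans ?_)
    have g0 : ∀ D ∈ comps K' W, (id D : Finset V).card ≤ s := by
      intro D hD
      obtain ⟨D', hD', hsub⟩ := comps_mono_sub K' hWU D hD
      exact (card_le_card hsub).trans (h2 D' hD')
    have g0' : ∑ D ∈ comps K' W, (id D : Finset V).card ≤ (comps K' W).card • s :=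
      sum_le_card_nsmul (comps K' W) (fun D => (id D : Finset V).card) s g0
    rw [smul_eq_mul] at g0'
    exact g0'.trans (Nat.mul_le_mul_right s hd)
  have g3 : J.card * (s + 1) ≤ W.card := by
    rw [hW, card_biUnion]
    · have g0 : ∀ C ∈ J, s + 1 ≤ (id C : Finset V).card := by
        intro C hC
        have := h1 C (hJsub hC)
        rw [FD, not_le] at this
        exact this
      have g0' : J.card • (s + 1) ≤ ∑ C ∈ J, (id C : Finset V).card :=
        card_nsmul_le_sum J (fun D => (id D : Finset V).card) (s + 1) g0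
      rwa [smul_eq_mul] at g0'
    · intro C hC D hD hne
      rw [Function.onFun, disjoint_left]
      intro x hx hx'
      exact hne (comps_disj K U C D (hJsub hC) (hJsub hD) x hx hx')
  have g4 : R * s < (R + 2) * (s + 1) := by nlinarith
  have g5 : (R + 2) * (s + 1) ≤ J.card * (s + 1) := Nat.mul_le_mul_right _ (by omega)
  omega

theorem count_succ (hloc : S_local) (r s : ℕ) (hr : 1 ≤ r) (e : ℕ)
    (ih : ∀ (R : ℕ) (U : Finset V) (K K' : SimpleGraph V),
      IsFlip R U K K' → (∀ C ∈ comps K U, ¬ FD r s e K C) → (∀ C ∈ comps K' U, FD r s e K' C) →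
      (comps K U).card ≤ gg r e R) (R : ℕ) (U : Finset V) (K K' : SimpleGraph V)
    (hfl : IsFlip R U K K') (h1 : ∀ C ∈ comps K U, ¬ FD r s (e + 1) K C)
    (h2 : ∀ C ∈ comps K' U, FD r s (e + 1) K' C) : (comps K U).card ≤ gg r (e + 1) R := by
  obtain ⟨f, M, hM, hf⟩ := id hfl
  apply count_fib R f
  intro Q
  set J := (comps K U).filter (fun C => C.image f = Q) with hJ
  by_contra hcon
  push Not at hcon
  have hJ3 : 3 ≤ J.card := by omega
  have hJsub : J ⊆ comps K U := filter_subset _ _
  have hJQ : ∀ C ∈ J, C.image f = Q := fun C hC => (mem_filter.1 hC).2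
  have hd := count_aux r s (e + 1) R U K K' f M hf h2 Q J (fun C hC => h1 C (hJsub hC)) hJsub hJQ hJ3
  set W := J.biUnion id with hW
  have hcW : comps K W = J := comps_biUnion K U J hJsub
  have hWU : W ⊆ U := by
    intro x hx
    rw [hW, mem_biUnion] at hx
    obtain ⟨C, hC, hx⟩ := hx
    exact comps_sub K U C (hJsub hC) hx
  have hFDW : ∀ D ∈ comps K' W, FD r s (e + 1) K' D := by
    intro D hD
    obtain ⟨D', hD', hsub⟩ := comps_mono_sub K' hWU D hD
    exact FD_mono r s (e + 1) K' D' D hsub (h2 D' hD')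
  have hbad : (Bad r s e K' W).card ≤ R := (card_le_card (filter_subset _ _)).trans hd
  obtain ⟨K'', hfl2, hFD2⟩ := hloc V r s hr e R K' W hFDW hbad
  have h3 := ih (R * ((R + 1) * r)) W K K'' (isFlip_trans (isFlip_mono hfl hWU) hfl2) (by
    intro C hC hFD
    rw [hcW] at hC
    exact h1 C (hJsub hC) (FD_succ r s hr e K C hFD)) hFD2
  rw [hcW] at h3
  omega

theorem s_count (h : S_local) : S_count := by
  intro V _ r s hr e
  induction e with
  | zero =>
    intro R U K K' hfl h1 h2
    exact count_zero r s R U K K' hfl h1 h2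
  | succ e ih =>
    intro R U K K' hfl h1 h2
    exact count_succ h r s hr e ih R U K K' hfl h1 h2

end Pool.Agent.Q215.SDs
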