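import Pool.Agent.Q215.SD.R4

set_option autoImplicit false
set_option linter.unusedSectionVars false

/-!
# Flip-depth over a base size

As in `Q215/SD`, but the graphs of flip-depth `0` are those with at most `s` vertices, and none of
the constants depends on `s`.
-/

namespace Pool.Agent.Q215.SDs

open Finset Classical
open Pool.Agent.Q215.SD (IsFlip isFlip_mono isFlip_symm isFlip_refl isFlip_of_fintype isFlip_trans
  isFlip_congr comps_mono_sub comps_of_sub comps_of_closed comps_disj comps_biUnion comps_congr'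
  map_symm_map tr mem_tr)
open Pool.Agent.H234RC (Hypo NonIso)
open Pool.Agent.TH87.RVE (comps comp mem_comp mem_comps comp_self comp_sub comp_eq comp_of_mem
  comps_sub comps_nonempty comp_mem_comps comp_closed rch_mono rch_closed comp_closed_eq
  comps_comp comps_eq_union comps_erase comps_map comp_map rch RR rch_symm rch_trans)

variable {V : Type} [Fintype V]

/-- flip-depth at most `d` over the base size `s`, flips with `r` parts -/
def FD (r s : ℕ) : ℕ → SimpleGraph V → Finset V → Prop
  | 0, _, U => U.card ≤ s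
  | d + 1, K, U => ∃ K' : SimpleGraph V, IsFlip r U K K' ∧ ∀ C ∈ comps K' U, FD r s d K' C

/-- the components of `K` on `U` which do not have flip-depth at most `e` -/
noncomputable def Bad (r s e : ℕ) (K : SimpleGraph V) (U : Finset V) : Finset (Finset V) :=
  (comps K U).filter (fun C => ¬ FD r s e K C)

theorem mem_Bad (r s e : ℕ) (K : SimpleGraph V) (U C : Finset V) :
    C ∈ Bad r s e K U ↔ C ∈ comps K U ∧ ¬ FD r s e K C := by
  unfold Bad
  rw [mem_filter]

/-- the bound for the number of bad components which can be destroyed by a flip -/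
def gg (r : ℕ) : ℕ → ℕ → ℕ
  | 0, R => 2 ^ R * (R + 2)
  | e + 1, R => 2 ^ R * (gg r e (R * ((R + 1) * r)) + 2)

/-- a large number -/
def NN (r e R : ℕ) : ℕ := gg r e (R * ((R + 1) * r)) + gg r e r + 3

/-- the thresholds -/
def aa (r e R : ℕ) : ℕ → ℕ
  | 0 => 0
  | j + 1 => R * aa r e R j + NN r e R

/-- the number of bad components which are not recognised -/
def kap (r e R : ℕ) : ℕ := R * aa r e R R

/-! ### Flip-depth -/

theorem FD_congr (r s : ℕ) : ∀ (d : ℕ) (K K' : SimpleGraph V) (U : Finset V),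
    (∀ x ∈ U, ∀ y ∈ U, (K.Adj x y ↔ K'.Adj x y)) → FD r s d K U → FD r s d K' U := by
  intro d K K' U h hK
  cases d with
  | zero => exact hK
  | succ d =>
    obtain ⟨L, hL, hC⟩ := hK
    exact ⟨L, isFlip_congr hL h (fun _ _ _ _ => Iff.rfl), hC⟩

theorem FD_mono (r s : ℕ) : ∀ (d : ℕ) (K : SimpleGraph V) (U U' : Finset V), U' ⊆ U →
    FD r s d K U → FD r s d K U' := by
  intro d
  induction d with
  | zero => intro K U U' hU h; exact (card_le_card hU).trans h
  | succ d ih =>
    rintro K U U' hU ⟨L, hL, hC⟩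
    refine ⟨L, isFlip_mono hL hU, fun C' hC' => ?_⟩
    obtain ⟨C, hC1, hC2⟩ := comps_mono_sub L hU C' hC'
    exact ih L C C' hC2 (hC C hC1)

theorem FD_succ (r s : ℕ) (hr : 1 ≤ r) (d : ℕ) (K : SimpleGraph V) (U : Finset V)
    (h : FD r s d K U) : FD r s (d + 1) K U :=
  ⟨K, isFlip_refl hr U K, fun C hC => FD_mono r s d K U C (comps_sub K U C hC) h⟩

theorem FD_map (r s : ℕ) : ∀ (d : ℕ) (K K' : SimpleGraph V) (U : Finset V) (σ : Equiv.Perm V),
    (∀ x ∈ U, ∀ y ∈ U, (K'.Adj (σ x) (σ y) ↔ K.Adj x y)) → FD r s d K U →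
    FD r s d K' (U.map σ.toEmbedding) := by
  intro d
  induction d with
  | zero => intro K K' U σ h hK; rw [FD, card_map]; exact hK
  | succ d ih =>
    rintro K K' U σ h ⟨L, hL, hC⟩
    have hmem : ∀ x, σ x ∈ U.map σ.toEmbedding ↔ x ∈ U := fun x => by
      rw [mem_map_equiv, Equiv.symm_apply_apply]
    let L' : SimpleGraph V := L.comap σ.symm
    have hL' : ∀ x y, L'.Adj (σ x) (σ y) ↔ L.Adj x y := fun x y => by
      show L.Adj (σ.symm (σ x)) (σ.symm (σ y)) ↔ _
      rw [Equiv.symm_apply_apply, Equiv.symm_apply_apply]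
    refine ⟨L', ?_, ?_⟩
    · obtain ⟨f, M, hM, hf⟩ := hL
      refine ⟨fun x => f (σ.symm x), M, hM, fun x hx y hy hxy => ?_⟩
      obtain ⟨x, rfl⟩ := σ.surjective x
      obtain ⟨y, rfl⟩ := σ.surjective y
      rw [hmem] at hx hy
      rw [hL', h x hx y hy]
      simp only [Equiv.symm_apply_apply]
      exact hf x hx y hy (fun e => hxy (congrArg σ e))
    · intro C hC'
      rw [comps_map L L' U (U.map σ.toEmbedding) σ hmem (fun x y _ _ => hL' x y), mem_image] at hC'
      obtain ⟨D, hD, rfl⟩ := hC'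
      exact ih L L' D σ (fun x _ y _ => hL' x y) (hC D hD)

theorem FD_map_iff (r s d : ℕ) (K K' : SimpleGraph V) (U : Finset V) (σ : Equiv.Perm V)
    (h : ∀ x ∈ U, ∀ y ∈ U, (K'.Adj (σ x) (σ y) ↔ K.Adj x y)) :
    FD r s d K' (U.map σ.toEmbedding) ↔ FD r s d K U := by
  constructor
  · intro hK'
    have h2 := FD_map r s d K' K (U.map σ.toEmbedding) σ.symm ?_ hK'
    · rwa [map_symm_map] at h2
    · intro x hx y hy
      obtain ⟨x, rfl⟩ := σ.surjective x
      obtain ⟨y, rfl⟩ := σ.surjective y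
      rw [mem_map_equiv, Equiv.symm_apply_apply] at hx hy
      rw [Equiv.symm_apply_apply, Equiv.symm_apply_apply, h x hx y hy]
  · exact FD_map r s d K K' U σ h

/-! ### Statements of the steps -/

/-- flips of the bad components are put together to one flip -/
def S_local : Prop :=
  ∀ (V : Type) [Fintype V] (r s : ℕ), 1 ≤ r → ∀ (e N : ℕ) (K : SimpleGraph V) (U : Finset V),
    (∀ C ∈ comps K U, FD r s (e + 1) K C) → (Bad r s e K U).card ≤ N →
    ∃ K' : SimpleGraph V, IsFlip ((N + 1) * r) U K K' ∧ ∀ C ∈ comps K' U, FD r s e K' C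

/-- the number of bad components which a flip can destroy -/
def S_count : Prop :=
  ∀ (V : Type) [Fintype V] (r s : ℕ), 1 ≤ r → ∀ (e R : ℕ) (U : Finset V) (K K' : SimpleGraph V),
    IsFlip R U K K' → (∀ C ∈ comps K U, ¬ FD r s e K C) → (∀ C ∈ comps K' U, FD r s e K' C) →
    (comps K U).card ≤ gg r e R

/-- two flips of the same graph have almost the same bad components -/
def S_rigid : Prop :=
  ∀ (V : Type) [Fintype V] (r s : ℕ), 1 ≤ r → ∀ (e R : ℕ) (U : Finset V) (K K' : SimpleGraph V),
    IsFlip R U K K' → (∀ C ∈ comps K U, FD r s (e + 1) K C) →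
    (∀ C ∈ comps K' U, FD r s (e + 1) K' C) →
    (Bad r s e K U \ Bad r s e K' U).card ≤ kap r e R

/-- new bad components which arise when a vertex is deleted -/
def S_del : Prop :=
  ∀ (V : Type) [Fintype V] (r s : ℕ), 1 ≤ r → ∀ (e : ℕ) (U : Finset V) (K : SimpleGraph V) (v : V),
    (∀ C ∈ comps K U, FD r s (e + 1) K C) →
    (Bad r s e K (U.erase v) \ Bad r s e K U).card ≤ gg r e r

/-- the bad components are almost the same in all cards -/
def S_star : Prop :=
  ∀ (V : Type) [Fintype V] (r s : ℕ), 1 ≤ r → ∀ (e R : ℕ) (G H K : SimpleGraph V)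
    (π : V → Equiv.Perm V), Hypo G H π → IsFlip R univ G K →
    (∀ C ∈ comps K univ, FD r s (e + 1) K C) → ∀ v w : V,
    (tr (Bad r s e K univ) v (π v) \ tr (Bad r s e K univ) w (π w)).card ≤
      1 + kap r e (R * R) + 2 * gg r e r

end Pool.Agent.Q215.SDs
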