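import Pool.Agent.Q215.SDs.Defs

set_option autoImplicit false

/-!
# Flips of the bad components put together (after `Q150/SD/Local.lean` of helper150)
-/

namespace Pool.Agent.Q215.SDs

open Finset Classical
open Pool.Agent.TH87.RVE (comps comp mem_comp mem_comps comp_self comp_sub comp_eq comp_of_mem
  comps_sub comps_nonempty comp_mem_comps comp_closed rch_mono rch_closed comp_closed_eq
  comps_comp comps_eq_union comps_erase comps_map comp_map rch RR rch_symm rch_trans)
open Pool.Agent.Q215.SD (IsFlip isFlip_mono isFlip_symm isFlip_refl isFlip_of_fintype isFlip_trans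
  isFlip_congr comps_mono_sub comps_of_sub comps_of_closed comps_disj comps_biUnion comps_congr'
  map_symm_map tr mem_tr)

theorem s_local : S_local := by
  intro V _ r s hr e N K U hFD hN
  set B := Bad r s e K U with hB
  have hBsub : ∀ C ∈ B, C ∈ comps K U := fun C hC => ((mem_Bad r s e K U C).1 hC).1
  have hex : ∀ C : Finset V, ∃ (L : SimpleGraph V) (f : V → Fin r) (M : Fin r → Fin r → Prop), C ∈ B →
      (∀ i j, M i j → M j i) ∧ (∀ x ∈ C, ∀ y ∈ C, x ≠ y → (L.Adj x y ↔ ¬ (K.Adj x y ↔ M (f x) (f y)))) ∧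
        ∀ D ∈ comps L C, FD r s e L D := by
    intro C
    by_cases hC : C ∈ B
    · obtain ⟨L, ⟨f, M, hM, hf⟩, hL⟩ := hFD C (hBsub C hC)
      exact ⟨L, f, M, fun _ => ⟨hM, hf, hL⟩⟩
    · exact ⟨K, fun _ => ⟨0, hr⟩, fun _ _ => False, fun h => absurd h hC⟩
  choose L f M hLfM using hex
  have hidx : ∃ idx : {C // C ∈ B} → Fin N, Function.Injective idx := by
    have h1 : Fintype.card {C // C ∈ B} ≤ N := by
      rw [Fintype.card_coe]
      exact hN
    exact ⟨fun c => Fin.castLE h1 (Fintype.equivFin _ c), fun a b hab =>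
      (Fintype.equivFin _).injective (Fin.castLE_injective h1 hab)⟩
  obtain ⟨idx, hidx⟩ := hidx
  let j : V → Fin (N + 1) := fun x => if h : comp K U x ∈ B then (idx ⟨_, h⟩).succ else 0
  let mat : Fin (N + 1) × Fin r → Fin (N + 1) × Fin r → Prop := fun a b =>
    a.1 = b.1 ∧ ∃ (C : Finset V) (hC : C ∈ B), a.1 = (idx ⟨C, hC⟩).succ ∧ M C a.2 b.2
  let c : V → Fin (N + 1) × Fin r := fun x => (j x, f (comp K U x) x)
  have hmatsymm : ∀ a b, mat a b → mat b a := by
    rintro a b ⟨h1, C, hC, h2, h3⟩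
    exact ⟨h1.symm, C, hC, h1.symm.trans h2, (hLfM C hC).1 _ _ h3⟩
  have hj : ∀ (x : V) (C : Finset V) (hC : C ∈ B), j x = (idx ⟨C, hC⟩).succ ↔ comp K U x = C := by
    intro x C hC
    constructor
    · intro h
      by_cases hx : comp K U x ∈ B
      · simp only [j, dif_pos hx] at h
        have h1 := hidx (Fin.succ_injective _ h)
        exact Subtype.mk.inj h1
      · simp only [j, dif_neg hx] at h
        exact absurd h.symm (Fin.succ_ne_zero _)
    · intro h
      have hx : comp K U x ∈ B := by rw [h]; exact hC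
      simp only [j, dif_pos hx]
      congr 2
      exact Subtype.ext h
  have hmat : ∀ x y, mat (c x) (c y) ↔ comp K U x = comp K U y ∧ comp K U x ∈ B ∧
      M (comp K U x) (f (comp K U x) x) (f (comp K U x) y) := by
    intro x y
    constructor
    · rintro ⟨h1, C, hC, h2, h3⟩
      have h4 : comp K U x = C := (hj x C hC).1 h2
      have h5 : comp K U y = C := (hj y C hC).1 (h1.symm.trans h2)
      refine ⟨h4.trans h5.symm, by rw [h4]; exact hC, ?_⟩
      simp only [c] at h3
      rw [h5, h4] at h3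
      rw [h4]
      exact h3
    · rintro ⟨h1, h2, h3⟩
      refine ⟨?_, comp K U x, h2, (hj x _ h2).2 rfl, ?_⟩
      · simp only [c]
        rw [(hj x _ h2).2 rfl, (hj y _ h2).2 h1.symm]
      · simp only [c]
        rw [← h1]
        exact h3
  let K' : SimpleGraph V :=
    { Adj := fun x y => x ≠ y ∧ ¬ (K.Adj x y ↔ mat (c x) (c y))
      symm := ⟨fun x y h => ⟨h.1.symm, fun h2 => h.2
        ⟨fun h3 => hmatsymm _ _ (h2.1 h3.symm), fun h3 => (h2.2 (hmatsymm _ _ h3)).symm⟩⟩⟩
      loopless := ⟨fun x h => h.1 rfl⟩ }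
  have hK' : ∀ x y, K'.Adj x y ↔ x ≠ y ∧ ¬ (K.Adj x y ↔ mat (c x) (c y)) := fun x y => Iff.rfl
  refine ⟨K', ?_, ?_⟩
  · refine isFlip_of_fintype (I := Fin (N + 1) × Fin r) (by simp) c mat hmatsymm ?_
    intro x _ y _ hxy
    rw [hK']
    exact ⟨fun h => h.2, fun h => ⟨hxy, h⟩⟩
  · intro D hD
    obtain ⟨x, hx⟩ := comps_nonempty K' U D hD
    have hxU := comps_sub K' U D hD hx
    set C := comp K U x with hC
    have hCm : C ∈ comps K U := comp_mem_comps K U x hxU
    have hxC : x ∈ C := comp_self K U x hxU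
    have hcy : ∀ y ∈ C, comp K U y = C := fun y hy => comp_of_mem K U C hCm y hy
    have hclosed : ∀ y ∈ C, ∀ z ∈ U, K'.Adj y z → z ∈ C := by
      intro y hy z hz hyz
      by_contra hzC
      have h1 : ¬ K.Adj y z := fun h => hzC (comp_closed K U C hCm y z hy hz h)
      have h2 : ¬ mat (c y) (c z) := by
        rw [hmat]
        rintro ⟨h3, -⟩
        apply hzC
        rw [hcy y hy] at h3
        rw [h3]
        exact comp_self K U z hz
      exact ((hK' y z).1 hyz).2 ⟨fun h => absurd h h1, fun h => absurd h h2⟩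
    have hDC : D ∈ comps K' C := by
      rw [← comp_of_mem K' U D hD x hx, comp_closed_eq K' U C (comps_sub K U C hCm) hclosed x hxC]
      exact comp_mem_comps K' C x hxC
    have hDsub : D ⊆ C := comps_sub K' C D hDC
    by_cases hCB : C ∈ B
    · have hag : ∀ y ∈ C, ∀ z ∈ C, (K'.Adj y z ↔ (L C).Adj y z) := by
        intro y hy z hz
        by_cases hyz : y = z
        · rw [hyz]
          simp
        rw [hK', (hLfM C hCB).2.1 y hy z hz hyz, hmat, hcy y hy, hcy z hz]
        constructor
        · rintro ⟨-, h⟩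
          refine fun h2 => h (h2.trans ?_)
          exact ⟨fun h3 => ⟨rfl, hCB, h3⟩, fun h3 => h3.2.2⟩
        · intro h
          refine ⟨hyz, fun h2 => h (h2.trans ?_)⟩
          exact ⟨fun h3 => h3.2.2, fun h3 => ⟨rfl, hCB, h3⟩⟩
      rw [comps_congr' K' (L C) C hag] at hDC
      exact FD_congr r s e (L C) K' D (fun y hy z hz => (hag y (hDsub hy) z (hDsub hz)).symm)
        ((hLfM C hCB).2.2 D hDC)
    · have hag : ∀ y ∈ C, ∀ z ∈ C, (K'.Adj y z ↔ K.Adj y z) := by
        intro y hy z hz
        by_cases hyz : y = z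
        · rw [hyz]
          simp
        rw [hK', hmat, hcy y hy]
        constructor
        · rintro ⟨-, h⟩
          by_contra h2
          exact h ⟨fun h3 => absurd h3 h2, fun h3 => absurd h3.2.1 hCB⟩
        · intro h
          exact ⟨hyz, fun h2 => hCB (h2.1 h).2.1⟩
      have hFDC : FD r s e K C := by
        by_contra h
        exact hCB ((mem_Bad r s e K U C).2 ⟨hCm, h⟩)
      exact FD_congr r s e K K' D (fun y hy z hz => (hag y (hDsub hy) z (hDsub hz)).symm)
        (FD_mono r s e K C D hDsub hFDC)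

end Pool.Agent.Q215.SDs
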