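import Pool.Agent.Q215.SDs.Star
import Pool.Agent.Q280.SD.Flip2
import Pool.Agent.Q150.SD.Nice

set_option autoImplicit false
set_option linter.unusedSectionVars false

/-!
# Large graphs of bounded flip-depth are reconstructible
-/

namespace Pool.Agent.Q215.SDs

open Finset Classical
open Pool.Agent.Q215.SD (IsFlip isFlip_mono isFlip_symm isFlip_refl isFlip_of_fintype isFlip_trans
  isFlip_congr comps_mono_sub comps_of_sub comps_of_closed comps_disj comps_biUnion comps_congr'
  map_symm_map tr mem_tr)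
open Pool.Agent.H234RC (Hypo NonIso Reconstructible)
open Pool.Agent.TH403.FLP (flipG)
open Pool.Agent.TH87.RVE (comps comp mem_comp mem_comps comp_self comp_sub comp_eq comp_of_mem
  comps_sub comps_nonempty comp_mem_comps comp_closed rch_mono rch_closed comp_closed_eq
  comps_comp comps_eq_union comps_erase comps_map comp_map rch RR rch_symm rch_trans)

theorem star : S_star :=
  s_star (s_rigid s_local (s_count s_local)) (s_del (s_count s_local))

theorem recog : Pool.Agent.Q215.SD.S_recog :=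
  Pool.Agent.Q215.SD.s_recog Pool.Agent.Q280.SD.s_flip2 Pool.Agent.Q150.SD.s_nice

theorem isFlip_flipG {V : Type} [Fintype V] {R : ℕ} {G K : SimpleGraph V}
    (h : IsFlip R univ G K) : ∃ (f : V → Fin R) (P : Fin R → Fin R → Prop)
      (hP : ∀ i j, P i j → P j i), K = flipG G f P hP := by
  obtain ⟨f, M, hM, h⟩ := h
  refine ⟨f, M, hM, ?_⟩
  ext x y
  constructor
  · intro hxy
    exact ⟨hxy.ne, (h x (mem_univ _) y (mem_univ _) hxy.ne).mp hxy⟩
  · rintro ⟨hne, hxy⟩
    exact (h x (mem_univ _) y (mem_univ _) hne).mpr hxy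

/-- a graph with many bad components is reconstructible -/
theorem bad_bound (r : ℕ) (hr : 1 ≤ r) (e R : ℕ) : ∃ t : ℕ, ∀ (s : ℕ) (V : Type) [Fintype V]
    (G K : SimpleGraph V), IsFlip R univ G K → (∀ C ∈ comps K univ, FD r s (e + 1) K C) →
    t ≤ (Bad r s e K univ).card → Reconstructible G ∧ Reconstructible Gᶜ := by
  obtain ⟨t, ht⟩ := recog R (1 + kap r e (R * R) + 2 * gg r e r)
  refine ⟨t, fun s V _ G K hK hC hB => ?_⟩
  apply Pool.Agent.TH87.RVE.rec_of G (t ≤ (Bad r s e K univ).card) ?_ hB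
  intro H π hH hN hB'
  obtain ⟨f, P, hP, hfl⟩ := isFlip_flipG hK
  have h1 := ht V G H π hH hN f P hP (Bad r s e K univ) (by
    rw [← hfl]
    exact filter_subset _ _) (fun v w => star V r s hr e R G H K π hH hK hC v w)
  omega

theorem supp_card {V : Type} [Fintype V] (K : SimpleGraph V) (s : ℕ)
    (h : ∀ C ∈ comps K univ, C.card ≤ s) (A : Finset V) (hA : A = ∅)
    (c : (K.induce {v | v ∉ A}).ConnectedComponent) : c.supp.ncard ≤ s := by
  subst hA
  induction c using SimpleGraph.ConnectedComponent.ind with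
  | h v =>
    have h1 := h _ (comp_mem_comps K univ v.1 (mem_univ _))
    refine le_trans ?_ h1
    rw [← Set.ncard_coe_finset]
    apply Set.ncard_le_ncard_of_injOn Subtype.val ?_ Subtype.val_injective.injOn
    intro w hw
    rw [SimpleGraph.ConnectedComponent.mem_supp_iff, SimpleGraph.ConnectedComponent.eq] at hw
    rw [mem_coe, mem_comp]
    refine ⟨mem_univ _, ?_⟩
    obtain ⟨p⟩ := hw.symm
    clear hw h1
    induction p with
    | nil => exact Relation.ReflTransGen.refl
    | cons hadj _ ih =>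
      exact Relation.ReflTransGen.head ⟨mem_univ _, mem_univ _, hadj⟩ ih

/-- all sufficiently large graphs with a flip all of whose components have bounded flip-depth are
reconstructible -/
theorem main (r : ℕ) (hr : 1 ≤ r) (d : ℕ) : ∀ R : ℕ, ∃ c : ℝ, ∀ (s : ℕ) (V : Type) [Fintype V]
    (G K : SimpleGraph V), IsFlip R univ G K → (∀ C ∈ comps K univ, FD r s d K C) →
    c * (((s : ℝ) + 1) ^ 3 * Real.log ((s : ℝ) + 2) ^ 2) ≤ (Fintype.card V : ℝ) →
    Reconstructible G ∧ Reconstructible Gᶜ := by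
  induction d with
  | zero =>
    intro R
    obtain ⟨c, -, hc⟩ := Pool.Agent.TH403.FLP.final 0 R
    refine ⟨c, fun s V _ G K hK hC hV => ?_⟩
    obtain ⟨f, M, hM, hf⟩ := hK
    refine hc s V G K ∅ f {z | ∃ i j, z = s(i, j) ∧ M i j} ?_ (by simp)
      (fun cc => supp_card K s hC ∅ rfl cc) hV
    intro x y
    by_cases hxy : x = y
    · subst hxy
      exact ⟨fun h => absurd rfl h.ne, fun h => absurd rfl h.1⟩
    rw [hf x (mem_univ _) y (mem_univ _) hxy]
    have h1 : s(f x, f y) ∈ {z | ∃ i j, z = s(i, j) ∧ M i j} ↔ M (f x) (f y) := by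
      constructor
      · rintro ⟨i, j, h, hij⟩
        rw [Sym2.eq_iff] at h
        rcases h with ⟨h2, h3⟩ | ⟨h2, h3⟩
        · rw [h2, h3]; exact hij
        · rw [h2, h3]; exact hM _ _ hij
      · intro h
        exact ⟨_, _, rfl, h⟩
    rw [h1]
    tauto
  | succ d ih =>
    intro R
    obtain ⟨t, ht⟩ := bad_bound r hr d R
    obtain ⟨c, hc⟩ := ih (R * ((t + 1) * r))
    refine ⟨c, fun s V _ G K hK hC hV => ?_⟩
    by_cases hB : t ≤ (Bad r s d K univ).card
    · exact ht s V G K hK hC hB
    · obtain ⟨K', hK', hC'⟩ := s_local V r s hr d t K univ hC (by omega)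
      exact hc s V G K' (isFlip_trans hK hK') hC' hV

end Pool.Agent.Q215.SDs
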