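import Pool.Agent.Q215.SDs.Trans

set_option autoImplicit false

/-!
# Flip-depth: definitions, and the parts of the results
-/

namespace Pool.Agent.Q215.SDs.Res

/-- The truncated clique lattices of `G` and `H` have the same deck of maximal filter deleted
subsets: some bijection `f` of the vertex sets is such that, for every vertex `v`, the nonempty
cliques of `G` avoiding `v` and the nonempty cliques of `H` avoiding `f v`, both ordered by
inclusion, are isomorphic ordered sets. -/
def SameDeck {V W : Type} (G : SimpleGraph V) (H : SimpleGraph W) : Prop :=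
  ∃ f : V ≃ W, ∀ v : V,
    Nonempty ({s : Finset V // s.Nonempty ∧ G.IsClique (s : Set V) ∧ v ∉ s} ≃o
      {t : Finset W // t.Nonempty ∧ H.IsClique (t : Set W) ∧ f v ∉ t})

/-- `T(G)` is reconstructible from its deck: every truncated clique lattice `T(H)` of a finite
graph `H` with the same deck is isomorphic to `T(G)`. -/
def Reconstructible {V : Type} (G : SimpleGraph V) : Prop :=
  ∀ (W : Type) [Fintype W] (H : SimpleGraph W), SameDeck G H →
    Nonempty ({s : Finset V // s.Nonempty ∧ G.IsClique (s : Set V)} ≃o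
      {t : Finset W // t.Nonempty ∧ H.IsClique (t : Set W)})

/-- The flipped graph: `f v` is the index of the part which contains the vertex `v`, and the
adjacency of two different vertices `x`, `y` is complemented if the unordered pair of the indices
of their parts belongs to `P`. -/
def flipped {V : Type} {r : ℕ} (G : SimpleGraph V) (f : V → Fin r) (P : Set (Sym2 (Fin r))) :
    SimpleGraph V where
  Adj x y := x ≠ y ∧ (G.Adj x y ↔ s(f x, f y) ∉ P)
  symm := ⟨fun x y h => ⟨h.1.symm, by rw [G.adj_comm, Sym2.eq_swap]; exact h.2⟩⟩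
  loopless := ⟨fun _ h => h.1 rfl⟩

/-- The finite graph `G` has flip-depth at most `d` over the base size `s`, by flips with `r`
parts: it has at most `s` vertices, or `1 ≤ d` and for some flip of `G` with `r` parts all
components of the flipped graph have flip-depth at most `d - 1`. -/
def FlipDepthLE (r s : ℕ) : ℕ → (V : Type) → SimpleGraph V → Prop
  | 0, V, _ => Nat.card V ≤ s
  | d + 1, V, G => ∃ (f : V → Fin r) (P : Set (Sym2 (Fin r))),
      ∀ c : (flipped G f P).ConnectedComponent,
        FlipDepthLE r s d c.supp ((flipped G f P).induce c.supp)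

/-- A tree-model of `G` of depth `d` with `m` labels: the vertices of `G` are the leaves of a
rooted tree, all on level `d`, and have labels, and the adjacency of two different vertices is
determined by their labels and by the level of their least common ancestor. The tree is given by
the equivalence relations `E 0 = ⊤ ≥ E 1 ≥ … ≥ E d = ⊥`, where `E i` holds for two vertices if
they have the same ancestor on level `i`. -/
def HasTreeModel (m d : ℕ) {V : Type} (G : SimpleGraph V) : Prop :=
  ∃ (label : V → Fin m) (E : ℕ → Setoid V) (S : ℕ → Fin m → Fin m → Prop),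
    Antitone E ∧ E 0 = ⊤ ∧ E d = ⊥ ∧
      ∀ i < d, ∀ x y : V, (E i) x y → ¬ (E (i + 1)) x y →
        (G.Adj x y ↔ S i (label x) (label y))

open Pool.Agent.Q215.SDs
open Pool.Agent.Q215.SD (IsFlip isFlip_refl)
open Pool.Agent.TH87.RVE (comps comp mem_comps comp_mem_comps comps_sub)

theorem isFlip_flipped {V : Type} [Fintype V] {r : ℕ} (G : SimpleGraph V) (f : V → Fin r)
    (P : Set (Sym2 (Fin r))) : IsFlip r Finset.univ G (flipped G f P) := by
  refine ⟨f, fun i j => s(i, j) ∈ P, fun i j h => ?_, fun x _ y _ hxy => ?_⟩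
  · show s(j, i) ∈ P
    rw [Sym2.eq_swap]
    exact h
  · show (x ≠ y ∧ (G.Adj x y ↔ s(f x, f y) ∉ P)) ↔ _
    tauto

theorem exists_flipped {V : Type} [Fintype V] {r : ℕ} {G K : SimpleGraph V}
    (h : IsFlip r Finset.univ G K) :
    ∃ (f : V → Fin r) (P : Set (Sym2 (Fin r))), K = flipped G f P := by
  obtain ⟨f, M, hM, h⟩ := h
  refine ⟨f, {z | ∃ i j, z = s(i, j) ∧ M i j}, ?_⟩
  ext x y
  have h1 : s(f x, f y) ∈ {z | ∃ i j, z = s(i, j) ∧ M i j} ↔ M (f x) (f y) := by
    constructor
    · rintro ⟨i, j, h, hij⟩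
      rw [Sym2.eq_iff] at h
      rcases h with ⟨h2, h3⟩ | ⟨h2, h3⟩
      · rw [h2, h3]; exact hij
      · rw [h2, h3]; exact hM _ _ hij
    · intro h
      exact ⟨_, _, rfl, h⟩
  show K.Adj x y ↔ (x ≠ y ∧ (G.Adj x y ↔ s(f x, f y) ∉ _))
  rw [h1]
  by_cases hxy : x = y
  · subst hxy
    exact ⟨fun h => absurd rfl h.ne, fun h => absurd rfl h.1⟩
  · rw [h x (Finset.mem_univ _) y (Finset.mem_univ _) hxy]
    tauto

theorem all_comps {r s d : ℕ} (hr : 1 ≤ r) {V : Type} [Fintype V]
    (hd : ∀ (W : Type) [Fintype W] (G : SimpleGraph W), FlipDepthLE r s d W G ↔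
      FD r s d G Finset.univ) (K : SimpleGraph V) (v : V) :
    FlipDepthLE r s d (K.connectedComponentMk v).supp (K.induce (K.connectedComponentMk v).supp) ↔
      FD r s d K (comp K Finset.univ v) := by
  have : Fintype (K.connectedComponentMk v).supp := Fintype.ofFinite _
  rw [hd, FD_supp hr]

theorem flipDepth_iff (r s : ℕ) (hr : 1 ≤ r) (d : ℕ) : ∀ (V : Type) [Fintype V]
    (G : SimpleGraph V), FlipDepthLE r s d V G ↔ FD r s d G Finset.univ := by
  induction d with
  | zero =>
    intro V _ G
    show Nat.card V ≤ s ↔ Finset.univ.card ≤ s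
    rw [Nat.card_eq_fintype_card, Finset.card_univ]
  | succ d ih =>
    intro V _ G
    constructor
    · rintro ⟨f, P, h⟩
      refine ⟨flipped G f P, isFlip_flipped G f P, fun C hC => ?_⟩
      obtain ⟨v, -, rfl⟩ := (mem_comps _ _ _).mp hC
      exact (all_comps hr ih _ v).mp (h _)
    · rintro ⟨K, hK, h⟩
      obtain ⟨f, P, rfl⟩ := exists_flipped hK
      refine ⟨f, P, fun c => ?_⟩
      induction c using SimpleGraph.ConnectedComponent.ind with
      | h v =>
        exact (all_comps hr ih _ v).mpr (h _ (comp_mem_comps _ _ v (Finset.mem_univ _)))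

theorem card_bad {r s d : ℕ} (hr : 1 ≤ r) {V : Type} [Fintype V] (K : SimpleGraph V) :
    {c : K.ConnectedComponent | ¬ FlipDepthLE r s d c.supp (K.induce c.supp)}.ncard ≤
      (Bad r s d K Finset.univ).card := by
  classical
  have h1 : ∀ c : K.ConnectedComponent, ∃ v, K.connectedComponentMk v = c := fun c => c.exists_rep
  choose g hg using h1
  rw [← Set.ncard_coe_finset]
  apply Set.ncard_le_ncard_of_injOn (fun c => comp K Finset.univ (g c))
  · intro c hc
    rw [Finset.mem_coe, mem_Bad]
    refine ⟨comp_mem_comps _ _ _ (Finset.mem_univ _), fun h => hc ?_⟩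
    rw [← hg c]
    exact (all_comps hr (flipDepth_iff r s hr d) K (g c)).mpr h
  · intro c _ c' _ h
    have h2 : (comp K Finset.univ (g c) : Set V) = (comp K Finset.univ (g c') : Set V) := by
      simp only at h
      rw [h]
    rw [coe_comp_univ, coe_comp_univ, hg, hg] at h2
    exact SimpleGraph.ConnectedComponent.supp_injective h2

theorem part1 :
    ∀ r : ℕ, 1 ≤ r → ∀ R d : ℕ, ∃ t : ℕ, ∀ (s : ℕ) (V : Type) [Fintype V] (G : SimpleGraph V)
      (f : V → Fin R) (P : Set (Sym2 (Fin R))),
      (∀ c : (flipped G f P).ConnectedComponent,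
        FlipDepthLE r s (d + 1) c.supp ((flipped G f P).induce c.supp)) →
      t ≤ {c : (flipped G f P).ConnectedComponent |
        ¬ FlipDepthLE r s d c.supp ((flipped G f P).induce c.supp)}.ncard →
      Reconstructible G ∧ Reconstructible Gᶜ := by
  intro r hr R d
  obtain ⟨t, ht⟩ := bad_bound r hr d R
  refine ⟨t, fun s V _ G f P h1 h2 => ?_⟩
  apply ht s V G (flipped G f P) (isFlip_flipped G f P) ?_ (h2.trans (card_bad hr _))
  intro C hC
  obtain ⟨v, -, rfl⟩ := (mem_comps _ _ _).mp hC
  exact (all_comps hr (flipDepth_iff r s hr (d + 1)) _ v).mp (h1 _)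

theorem part2 :
    ∀ r : ℕ, 1 ≤ r → ∀ d : ℕ, ∃ C : ℝ, ∀ (s : ℕ) (V : Type) [Fintype V] (G : SimpleGraph V),
      FlipDepthLE r s d V G →
      C * (((s : ℝ) + 1) ^ 3 * Real.log ((s : ℝ) + 2) ^ 2) ≤ (Fintype.card V : ℝ) →
      Reconstructible G ∧ Reconstructible Gᶜ := by
  intro r hr d
  obtain ⟨C, hC⟩ := main r hr d 1
  refine ⟨C, fun s V _ G h hV => ?_⟩
  rw [flipDepth_iff r s hr] at h
  exact hC s V G G (isFlip_refl le_rfl _ _)
    (fun D hD => FD_mono r s d G _ D (comps_sub _ _ D hD) h) hV

theorem part3 :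
    ∀ m d : ℕ, ∃ N : ℕ, ∀ (V : Type) [Fintype V] (G : SimpleGraph V), HasTreeModel m d G →
      N ≤ Fintype.card V → Reconstructible G ∧ Reconstructible Gᶜ := by
  intro m d
  rcases Nat.eq_zero_or_pos m with hm | hm
  · refine ⟨1, fun V _ G h hV => ?_⟩
    obtain ⟨label, -⟩ := h
    obtain ⟨v⟩ := Fintype.card_pos_iff.mp hV
    have := label v
    rw [hm] at this
    exact this.elim0
  · obtain ⟨C, hC⟩ := main m hm d 1
    obtain ⟨N, hN⟩ := exists_nat_ge (C * (((1 : ℕ) + 1 : ℝ) ^ 3 * Real.log (((1 : ℕ) : ℝ) + 2) ^ 2))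
    refine ⟨N, fun V _ G h hV => ?_⟩
    obtain ⟨label, E, S, hE, h0, hd, hS⟩ := h
    have h1 : FD m 1 d G Finset.univ := by
      apply FD_tree label d E S G Finset.univ _ _ hE (fun i hi x _ y _ => hS i hi x y)
      · intro x _ y _
        rw [h0]
        trivial
      · intro x _ y _ hxy
        rw [hd] at hxy
        exact hxy
    exact hC 1 V G G (isFlip_refl le_rfl _ _)
      (fun D hD => FD_mono m 1 d G _ D (comps_sub _ _ D hD) h1)
      (hN.trans (by exact_mod_cast hV))

end Pool.Agent.Q215.SDs.Res
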