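import Pool.Agent.Q215.SDs.Defs

set_option autoImplicit false
set_option linter.unusedSectionVars false

/-!
# Two flips of the same graph have almost the same bad components
(after `Q280/SD/Rigid.lean` of helper280)
-/

namespace Pool.Agent.Q215.SDs

open Finset Classical
open Pool.Agent.Q215.SD (IsFlip isFlip_mono isFlip_symm isFlip_refl isFlip_of_fintype isFlip_trans
  isFlip_congr comps_mono_sub comps_of_sub comps_of_closed comps_disj comps_biUnion comps_congr'
  map_symm_map tr mem_tr)
open Pool.Agent.TH87.RVE (comps comp mem_comp mem_comps comp_self comp_sub comp_eq comp_of_mem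
  comps_sub comps_nonempty comp_mem_comps comp_closed rch_mono rch_closed comp_closed_eq
  comps_comp rch RR rch_symm rch_trans)

variable {V : Type} [Fintype V]

/-- If every component of `K` on `W` contains an active vertex, the flip does not change the
adjacency to vertices which are not active, and active vertices of the same part are joined by `K'`,
then `K'` has at most `R` components on `W`. -/
theorem few_comps {R : ℕ} (W : Finset V) (K K' : SimpleGraph V) (f : V → Fin R)
    (M : Fin R → Fin R → Prop)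
    (hf : ∀ x ∈ W, ∀ y ∈ W, x ≠ y → (K'.Adj x y ↔ ¬ (K.Adj x y ↔ M (f x) (f y))))
    (act : Fin R → Prop) (ha : ∀ C ∈ comps K W, ∃ x ∈ C, act (f x))
    (hb : ∀ x ∈ W, ¬ act (f x) → ∀ y ∈ W, ¬ M (f x) (f y))
    (hc : ∀ x ∈ W, ∀ y ∈ W, f x = f y → act (f x) → rch K' W x y) :
    (comps K' W).card ≤ R := by
  -- every vertex is joined by `K'` to an active vertex
  have h1 : ∀ x ∈ W, ∃ y ∈ W, act (f y) ∧ rch K' W x y := by
    intro x hx
    obtain ⟨y, hy, hya⟩ := ha _ (comp_mem_comps K W x hx)
    have hyW : y ∈ W := comp_sub K W x hy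
    have hyx : rch K W y x := rch_symm K W ((mem_comp K W x y).mp hy).2
    clear hy
    induction hyx with
    | refl => exact ⟨y, hyW, hya, Relation.ReflTransGen.refl⟩
    | @tail b c h2 h3 ih =>
      obtain ⟨z, hz, hza, hbz⟩ := ih h3.1
      by_cases hcact : act (f c)
      · exact ⟨c, hx, hcact, Relation.ReflTransGen.refl⟩
      · have h4 := hb c hx hcact b h3.1
        have hne : c ≠ b := h3.2.2.ne'
        have h5 : K'.Adj c b := by
          rw [hf c hx b h3.1 hne]
          intro h6
          exact h4 (h6.mp h3.2.2.symm)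
        exact ⟨z, hz, hza, Relation.ReflTransGen.head ⟨hx, h3.1, h5⟩ hbz⟩
  have h2 : ∀ D ∈ comps K' W, ∃ y ∈ D, act (f y) := by
    intro D hD
    obtain ⟨x, hx⟩ := comps_nonempty K' W D hD
    obtain ⟨y, hy, hya, hxy⟩ := h1 x (comps_sub K' W D hD hx)
    refine ⟨y, ?_, hya⟩
    rw [← comp_of_mem K' W D hD x hx, mem_comp]
    exact ⟨hy, hxy⟩
  choose g hg1 hg2 using h2
  have h3 := Fintype.card_le_of_injective
    (fun D : {D // D ∈ comps K' W} => f (g D.1 D.2)) (by
      rintro ⟨D, hD⟩ ⟨E, hE⟩ hDE
      have hD' := hg1 D hD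
      have hE' := hg1 E hE
      have h4 := hc _ (comps_sub K' W D hD hD') _ (comps_sub K' W E hE hE') hDE (hg2 D hD)
      have h5 : g E hE ∈ D := by
        rw [← comp_of_mem K' W D hD _ hD', mem_comp]
        exact ⟨comps_sub K' W E hE hE', h4⟩
      exact Subtype.ext (comps_disj K' W D E hD hE _ h5 hE'))
  rwa [Fintype.card_coe, Fintype.card_fin] at h3

theorem aa_mono (r e R : ℕ) (hR : 1 ≤ R) : Monotone (aa r e R) := by
  apply monotone_nat_of_le_succ
  intro n
  show aa r e R n ≤ R * aa r e R n + NN r e R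
  nlinarith [Nat.zero_le (aa r e R n), Nat.zero_le (NN r e R)]

theorem exists_gap (r e R : ℕ) (n : Fin R → ℕ) :
    ∃ j ≤ R, ∀ p, n p < aa r e R j ∨ aa r e R (j + 1) ≤ n p := by
  by_contra hcon
  push Not at hcon
  rcases Nat.eq_zero_or_pos R with hR | hR
  · obtain ⟨p, _⟩ := hcon 0 (Nat.zero_le _)
    rw [hR] at p
    exact p.elim0
  · have h1 : ∀ j : Fin (R + 1), ∃ p, aa r e R j ≤ n p ∧ n p < aa r e R (j + 1) := fun j =>
      hcon j (Nat.lt_succ_iff.mp j.2)
    choose p hp1 hp2 using h1
    have hinj : Function.Injective p := by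
      have key : ∀ i j : Fin (R + 1), i < j → p i ≠ p j := by
        intro i j hij h
        have h2 := hp2 i
        rw [h] at h2
        have h3 := aa_mono r e R hR (show (i : ℕ) + 1 ≤ j from hij)
        exact absurd (h2.trans_le h3) (not_lt.mpr (hp1 j))
      intro i j h
      rcases lt_trichotomy i j with h2 | h2 | h2
      · exact absurd h (key i j h2)
      · exact h2
      · exact absurd h.symm (key j i h2)
    have := Fintype.card_le_of_injective p hinj
    rw [Fintype.card_fin, Fintype.card_fin] at this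
    omega

theorem s_rigid (h : S_local) (h' : S_count) : S_rigid := by
  intro V _ r s hr e R U K K' hflip hK hK'
  have hflip' := hflip
  obtain ⟨f, M, hM, hf⟩ := hflip
  set B := Bad r s e K U with hB
  have hBsub : ∀ C ∈ B, C ∈ comps K U := fun C hC => ((mem_Bad r s e K U C).mp hC).1
  have hBbad : ∀ C ∈ B, ¬ FD r s e K C := fun C hC => ((mem_Bad r s e K U C).mp hC).2
  let Bp : Fin R → Finset (Finset V) := fun p => B.filter (fun C => ∃ x ∈ C, f x = p)
  have hBp : ∀ p C, C ∈ Bp p ↔ C ∈ B ∧ ∃ x ∈ C, f x = p := fun p C => mem_filter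
  obtain ⟨j, hj, hgap⟩ := exists_gap r e R (fun p => (Bp p).card)
  let small : Fin R → Prop := fun p => (Bp p).card < aa r e R j
  have hbig : ∀ p, ¬ small p → aa r e R (j + 1) ≤ (Bp p).card := fun p hp =>
    (hgap p).resolve_left hp
  let T : Finset (Finset V) := B.filter (fun C => ∀ x ∈ C, ¬ small (f x))
  have hT : ∀ C, C ∈ T ↔ C ∈ B ∧ ∀ x ∈ C, ¬ small (f x) := fun C => mem_filter
  have hBT : (B \ T).card ≤ R * aa r e R j := by
    have h1 : B \ T ⊆ (univ.filter (fun p => small p)).biUnion Bp := by
      intro C hC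
      rw [mem_sdiff, hT] at hC
      obtain ⟨hC1, hC2⟩ := hC
      have h2 : ∃ x ∈ C, small (f x) := by
        by_contra hcon
        push Not at hcon
        exact hC2 ⟨hC1, hcon⟩
      obtain ⟨x, hx, hs⟩ := h2
      rw [mem_biUnion]
      exact ⟨f x, mem_filter.mpr ⟨mem_univ _, hs⟩, (hBp _ _).mpr ⟨hC1, x, hx, rfl⟩⟩
    refine (card_le_card h1).trans (card_biUnion_le.trans ?_)
    have h2 : ∑ p ∈ univ.filter (fun p => small p), (Bp p).card ≤
        ∑ p ∈ univ.filter (fun p : Fin R => small p), aa r e R j :=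
      sum_le_sum (fun p hp => ((mem_filter.mp hp).2 : (Bp p).card < aa r e R j).le)
    refine h2.trans ?_
    rw [sum_const, smul_eq_mul]
    apply Nat.mul_le_mul_right
    refine (card_filter_le _ _).trans ?_
    rw [card_univ, Fintype.card_fin]
  have hTp : ∀ p, ¬ small p → NN r e R ≤ (T ∩ Bp p).card := by
    intro p hp
    have h1 : Bp p ⊆ (T ∩ Bp p) ∪ (B \ T) := by
      intro C hC
      rw [mem_union, mem_inter, mem_sdiff]
      by_cases hCT : C ∈ T
      · exact Or.inl ⟨hCT, hC⟩
      · exact Or.inr ⟨((hBp _ _).mp hC).1, hCT⟩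
    have h2 := (card_le_card h1).trans (card_union_le _ _)
    have h3 := hbig p hp
    have h4 : aa r e R (j + 1) = R * aa r e R j + NN r e R := rfl
    omega
  -- vertices in different components
  have hdiff : ∀ C ∈ B, ∀ x ∈ C, ∀ y ∈ U, y ∉ C → ¬ K.Adj x y := by
    intro C hC x hx y hy hyC hadj
    exact hyC (comp_closed K U C (hBsub C hC) x y hx hy hadj)
  -- (i)
  have hi : ∀ p q, ¬ small p → ¬ small q → ¬ M p q := by
    intro p0 q0 hp0 hq0 hM0
    let act : Fin R → Prop := fun p => ¬ small p ∧ ∃ q, ¬ small q ∧ M p q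
    let J : Finset (Finset V) := T.filter (fun C => ∃ x ∈ C, act (f x))
    have hJ : ∀ C, C ∈ J ↔ C ∈ T ∧ ∃ x ∈ C, act (f x) := fun C => mem_filter
    have hJB : ∀ C ∈ J, C ∈ B := fun C hC => ((hT C).mp ((hJ C).mp hC).1).1
    have hJU : J ⊆ comps K U := fun C hC => hBsub C (hJB C hC)
    have hJcard : ∀ p, act p → NN r e R ≤ (J.filter (fun C => ∃ x ∈ C, f x = p)).card := by
      intro p hp
      refine (hTp p hp.1).trans (card_le_card ?_)
      intro C hC
      rw [mem_inter, hBp] at hC
      obtain ⟨hC1, hC2, x, hx, hxp⟩ := hC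
      rw [mem_filter, hJ]
      exact ⟨⟨hC1, x, hx, hxp ▸ hp⟩, x, hx, hxp⟩
    have hJN : NN r e R ≤ J.card := (hJcard p0 ⟨hp0, q0, hq0, hM0⟩).trans (card_filter_le _ _)
    set W := J.biUnion id with hW
    have hWmem : ∀ x, x ∈ W ↔ ∃ C ∈ J, x ∈ C := fun x => by rw [hW, mem_biUnion]; rfl
    have hWU : W ⊆ U := by
      intro x hx
      obtain ⟨C, hC, hx⟩ := (hWmem x).mp hx
      exact comps_sub K U C (hJU hC) hx
    have hcW : comps K W = J := comps_biUnion K U J hJU
    have hWbig : ∀ x ∈ W, ¬ small (f x) := by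
      intro x hx
      obtain ⟨C, hC, hx⟩ := (hWmem x).mp hx
      exact ((hT C).mp ((hJ C).mp hC).1).2 x hx
    have hfew : (comps K' W).card ≤ R := by
      apply few_comps W K K' f M (fun x hx y hy => hf x (hWU hx) y (hWU hy)) act
      · intro C hC
        rw [hcW] at hC
        exact ((hJ C).mp hC).2
      · intro x hx hna y hy hMxy
        exact hna ⟨hWbig x hx, f y, hWbig y hy, hMxy⟩
      · intro x hx y hy hxy hact
        obtain ⟨q, hq, hMq⟩ := hact.2
        have hqact : act q := ⟨hq, f x, hact.1, hM _ _ hMq⟩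
        have hcard := hJcard q hqact
        have h3 : 3 ≤ NN r e R := by unfold NN; omega
        -- a component which contains neither x nor y
        obtain ⟨C, hC, hxC, hyC⟩ : ∃ C ∈ J.filter (fun C => ∃ x ∈ C, f x = q), x ∉ C ∧ y ∉ C := by
          by_contra hcon
          push Not at hcon
          have h4 : J.filter (fun C => ∃ x ∈ C, f x = q) ⊆ {comp K U x, comp K U y} := by
            intro C hC
            rw [mem_insert, mem_singleton]
            have hCU := hJU (mem_filter.mp hC).1
            by_cases hxC : x ∈ C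
            · exact Or.inl (comp_of_mem K U C hCU x hxC).symm
            · exact Or.inr (comp_of_mem K U C hCU y (hcon C hC hxC)).symm
          have h5 := card_le_card h4
          have h6 := card_le_two (a := comp K U x) (b := comp K U y)
          omega
        rw [mem_filter] at hC
        obtain ⟨hCJ, z, hz, hzq⟩ := hC
        have hzW : z ∈ W := (hWmem z).mpr ⟨C, hCJ, hz⟩
        have key : ∀ u ∈ W, f u = f x → u ∉ C → K'.Adj z u := by
          intro u hu hfu huC
          have hne : z ≠ u := fun h => huC (h ▸ hz)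
          rw [hf z (hWU hzW) u (hWU hu) hne]
          intro h7
          refine hdiff C (hJB C hCJ) z hz u (hWU hu) huC (h7.mpr ?_)
          rw [hzq, hfu]
          exact hM _ _ hMq
        exact Relation.ReflTransGen.tail (Relation.ReflTransGen.single
          ⟨hx, hzW, (key x hx rfl hxC).symm⟩) ⟨hzW, hy, key y hy hxy.symm hyC⟩
    obtain ⟨K'', hfl, hK''⟩ := h V r s hr e R K' W (by
      intro C hC
      obtain ⟨C', hC', hsub⟩ := comps_mono_sub K' hWU C hC
      exact FD_mono r s (e + 1) K' C' C hsub (hK' C' hC')) ((card_filter_le _ _).trans hfew)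
    have hcount := h' V r s hr e (R * ((R + 1) * r)) W K K''
      (isFlip_trans (isFlip_mono hflip' hWU) hfl) (by
        intro C hC
        rw [hcW] at hC
        exact hBbad C (hJB C hC)) hK''
    rw [hcW] at hcount
    have h8 : NN r e R = gg r e (R * ((R + 1) * r)) + gg r e r + 3 := rfl
    omega
  -- (ii)
  have hii : ∀ p q, ¬ small p → small q → (∃ x ∈ U, f x = q) → ¬ M p q := by
    rintro p q hp hq ⟨x, hxU, hxq⟩ hMpq
    set J : Finset (Finset V) := T ∩ Bp p with hJ
    have hJB : ∀ C ∈ J, C ∈ B := fun C hC => ((hT C).mp (mem_inter.mp hC).1).1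
    have hJU : J ⊆ comps K U := fun C hC => hBsub C (hJB C hC)
    have hJN : NN r e R ≤ J.card := hTp p hp
    set W := J.biUnion id with hW
    have hWmem : ∀ x, x ∈ W ↔ ∃ C ∈ J, x ∈ C := fun x => by rw [hW, mem_biUnion]; rfl
    have hWU : W ⊆ U := by
      intro x hx
      obtain ⟨C, hC, hx⟩ := (hWmem x).mp hx
      exact comps_sub K U C (hJU hC) hx
    have hcW : comps K W = J := comps_biUnion K U J hJU
    have hWbig : ∀ x ∈ W, ¬ small (f x) := by
      intro x hx
      obtain ⟨C, hC, hx⟩ := (hWmem x).mp hx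
      exact ((hT C).mp (mem_inter.mp hC).1).2 x hx
    have hagree : ∀ x ∈ W, ∀ y ∈ W, (K'.Adj x y ↔ K.Adj x y) := by
      intro a ha b hb
      by_cases hab : a = b
      · subst hab
        exact ⟨fun h => absurd rfl h.ne, fun h => absurd rfl h.ne⟩
      · rw [hf a (hWU ha) b (hWU hb) hab]
        have := hi (f a) (f b) (hWbig a ha) (hWbig b hb)
        tauto
    have hWD : W ⊆ comp K' U x := by
      intro z hz
      obtain ⟨C, hC, hzC⟩ := (hWmem z).mp hz
      obtain ⟨y, hy, hyp⟩ := ((hBp _ _).mp (mem_inter.mp hC).2).2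
      have hyW : y ∈ W := (hWmem y).mpr ⟨C, hC, hy⟩
      have hxC : x ∉ C := fun hxC => hWbig x ((hWmem x).mpr ⟨C, hC, hxC⟩) (hxq ▸ hq)
      have hyx : K'.Adj y x := by
        rw [hf y (hWU hyW) x hxU (fun h => hxC (h ▸ hy))]
        intro h7
        refine hdiff C (hJB C hC) y hy x hxU hxC (h7.mpr ?_)
        rw [hyp, hxq]
        exact hMpq
      have hCW : C ∈ comps K W := by rw [hcW]; exact hC
      have hyz : rch K W y z := by
        have h9 : z ∈ comp K W y := by rw [comp_of_mem K W C hCW y hy]; exact hzC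
        exact ((mem_comp K W y z).mp h9).2
      have hyz' : rch K' U y z := by
        clear hzC hz
        induction hyz with
        | refl => exact Relation.ReflTransGen.refl
        | tail h1 h2 ih =>
          exact Relation.ReflTransGen.tail ih ⟨hWU h2.1, hWU h2.2.1,
            (hagree _ h2.1 _ h2.2.1).mpr h2.2.2⟩
      rw [mem_comp]
      exact ⟨hWU hz, Relation.ReflTransGen.head ⟨hxU, hWU hyW, hyx.symm⟩ hyz'⟩
    obtain ⟨L, hL, hLC⟩ := hK' _ (comp_mem_comps K' U x hxU)
    have hcount := h' V r s hr e r W K L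
      (isFlip_congr (isFlip_mono hL hWD) hagree (fun _ _ _ _ => Iff.rfl)) (by
        intro C hC
        rw [hcW] at hC
        exact hBbad C (hJB C hC)) (by
        intro C hC
        obtain ⟨C', hC', hsub⟩ := comps_mono_sub L hWD C hC
        exact FD_mono r s e L C' C hsub (hLC C' hC'))
    rw [hcW] at hcount
    have h8 : NN r e R = gg r e (R * ((R + 1) * r)) + gg r e r + 3 := rfl
    omega
  -- (iii)
  have hiii : T ⊆ Bad r s e K' U := by
    intro C hC
    obtain ⟨hCB, hCbig⟩ := (hT C).mp hC
    have hCU := comps_sub K U C (hBsub C hCB)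
    have hagree : ∀ x ∈ C, ∀ y ∈ C, (K.Adj x y ↔ K'.Adj x y) := by
      intro a ha b hb
      by_cases hab : a = b
      · subst hab
        exact ⟨fun h => absurd rfl h.ne, fun h => absurd rfl h.ne⟩
      · rw [hf a (hCU ha) b (hCU hb) hab]
        have := hi (f a) (f b) (hCbig a ha) (hCbig b hb)
        tauto
    rw [mem_Bad]
    constructor
    · apply comps_of_closed K' hCU
      · intro x hx y hy hadj
        by_contra hyC
        have hne : x ≠ y := fun h => hyC (h ▸ hx)
        rw [hf x (hCU hx) y hy hne] at hadj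
        have h1 := hdiff C hCB x hx y hy hyC
        have h2 : M (f x) (f y) := by tauto
        by_cases hs : small (f y)
        · exact hii (f x) (f y) (hCbig x hx) hs ⟨y, hy, rfl⟩ h2
        · exact hi (f x) (f y) (hCbig x hx) hs h2
      · rw [← comps_congr' K K' C hagree]
        exact comps_comp K U C (hBsub C hCB)
    · intro hFD
      exact hBbad C hCB (FD_congr r s e K' K C (fun x hx y hy => (hagree x hx y hy).symm) hFD)
  have h9 : B \ Bad r s e K' U ⊆ B \ T := sdiff_subset_sdiff (Subset.refl _) hiii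
  refine (card_le_card h9).trans (hBT.trans ?_)
  unfold kap
  rcases Nat.eq_zero_or_pos R with hR | hR
  · rw [hR]; simp
  · exact Nat.mul_le_mul_left _ (aa_mono r e R hR hj)

end Pool.Agent.Q215.SDs
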