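import Pool.Agent.Q215.SDs.Main

set_option autoImplicit false
set_option linter.unusedSectionVars false

/-!
# Flip-depth of a graph and of its induced subgraphs
-/

namespace Pool.Agent.Q215.SDs

open Finset Classical
open Pool.Agent.Q215.SD (IsFlip isFlip_mono isFlip_symm isFlip_refl isFlip_of_fintype isFlip_trans
  isFlip_congr comps_mono_sub comps_of_sub comps_of_closed comps_disj comps_biUnion comps_congr'
  map_symm_map tr mem_tr)
open Pool.Agent.H234RC (Hypo NonIso Reconstructible)
open Pool.Agent.TH87.RVE (comps comp mem_comp mem_comps comp_self comp_sub comp_eq comp_of_mem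
  comps_sub comps_nonempty comp_mem_comps comp_closed rch_mono rch_closed comp_closed_eq
  comps_comp comps_eq_union comps_erase comps_map comp_map rch RR rch_symm rch_trans)

/-! ### Embeddings -/

theorem comp_emb {W V : Type} [Fintype W] [Fintype V] (φ : W ↪ V) (L : SimpleGraph W)
    (K : SimpleGraph V) (U : Finset W) (h : ∀ x ∈ U, ∀ y ∈ U, (K.Adj (φ x) (φ y) ↔ L.Adj x y))
    (x : W) : comp K (U.map φ) (φ x) = (comp L U x).map φ := by
  have h1 : ∀ a, rch K (U.map φ) (φ x) a → ∃ y, φ y = a ∧ rch L U x y := by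
    intro a ha
    induction ha with
    | refl => exact ⟨x, rfl, Relation.ReflTransGen.refl⟩
    | @tail b c _ hbc ih =>
      obtain ⟨y, rfl, hy⟩ := ih
      obtain ⟨hb, hc, hadj⟩ := hbc
      rw [mem_map] at hb hc
      obtain ⟨y', hy', hyy⟩ := hb
      obtain ⟨z, hz, rfl⟩ := hc
      have : y' = y := φ.injective hyy
      subst this
      exact ⟨z, rfl, hy.tail ⟨hy', hz, (h _ hy' _ hz).mp hadj⟩⟩
  have h2 : ∀ y, rch L U x y → rch K (U.map φ) (φ x) (φ y) := by
    intro y hy
    induction hy with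
    | refl => exact Relation.ReflTransGen.refl
    | @tail b c _ hbc ih =>
      exact ih.tail ⟨mem_map_of_mem φ hbc.1, mem_map_of_mem φ hbc.2.1,
        (h _ hbc.1 _ hbc.2.1).mpr hbc.2.2⟩
  ext a
  rw [mem_comp, mem_map, mem_map]
  constructor
  · rintro ⟨⟨y, hy, rfl⟩, ha⟩
    obtain ⟨z, hz, hr⟩ := h1 _ ha
    have : z = y := φ.injective hz
    subst this
    exact ⟨z, (mem_comp L U x z).mpr ⟨hy, hr⟩, rfl⟩
  · rintro ⟨y, hy, rfl⟩
    rw [mem_comp] at hy
    exact ⟨⟨y, hy.1, rfl⟩, h2 y hy.2⟩

theorem comps_emb {W V : Type} [Fintype W] [Fintype V] (φ : W ↪ V) (L : SimpleGraph W)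
    (K : SimpleGraph V) (U : Finset W) (h : ∀ x ∈ U, ∀ y ∈ U, (K.Adj (φ x) (φ y) ↔ L.Adj x y)) :
    comps K (U.map φ) = (comps L U).image (fun D => D.map φ) := by
  ext C
  rw [mem_comps, mem_image]
  constructor
  · rintro ⟨a, ha, rfl⟩
    rw [mem_map] at ha
    obtain ⟨x, hx, rfl⟩ := ha
    exact ⟨comp L U x, comp_mem_comps L U x hx, (comp_emb φ L K U h x).symm⟩
  · rintro ⟨D, hD, rfl⟩
    rw [mem_comps] at hD
    obtain ⟨x, hx, rfl⟩ := hD
    exact ⟨φ x, mem_map_of_mem φ hx, comp_emb φ L K U h x⟩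

theorem FD_emb (r s : ℕ) (hr : 1 ≤ r) : ∀ (d : ℕ) {W V : Type} [Fintype W] [Fintype V] (φ : W ↪ V)
    (L : SimpleGraph W) (K : SimpleGraph V) (U : Finset W),
    (∀ x ∈ U, ∀ y ∈ U, (K.Adj (φ x) (φ y) ↔ L.Adj x y)) →
    (FD r s d L U ↔ FD r s d K (U.map φ)) := by
  intro d
  induction d with
  | zero =>
    intro W V _ _ φ L K U h
    rw [FD, FD, card_map]
  | succ d ih =>
    intro W V _ _ φ L K U h
    constructor
    · rintro ⟨L', ⟨f, M, hM, hf⟩, hC⟩
      let K' : SimpleGraph V := L'.map φ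
      have hK' : ∀ x y, K'.Adj (φ x) (φ y) ↔ L'.Adj x y := fun x y =>
        SimpleGraph.map_adj_apply
      let g : V → Fin r := fun a => if h : ∃ x, φ x = a then f (Classical.choose h) else ⟨0, hr⟩
      have hg : ∀ x, g (φ x) = f x := by
        intro x
        have h1 : ∃ y, φ y = φ x := ⟨x, rfl⟩
        simp only [g, dif_pos h1]
        rw [φ.injective (Classical.choose_spec h1)]
      refine ⟨K', ⟨g, M, hM, ?_⟩, ?_⟩
      · intro a ha b hb hab
        rw [mem_map] at ha hb
        obtain ⟨x, hx, rfl⟩ := ha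
        obtain ⟨y, hy, rfl⟩ := hb
        rw [hK', h x hx y hy, hg, hg]
        exact hf x hx y hy (fun e => hab (congrArg φ e))
      · intro C hC'
        rw [comps_emb φ L' K' U (fun x _ y _ => hK' x y), mem_image] at hC'
        obtain ⟨D, hD, rfl⟩ := hC'
        exact (ih φ L' K' D (fun x _ y _ => hK' x y)).mp (hC D hD)
    · rintro ⟨K', ⟨g, M, hM, hg⟩, hC⟩
      let L' : SimpleGraph W := K'.comap φ
      have hL' : ∀ x y, K'.Adj (φ x) (φ y) ↔ L'.Adj x y := fun x y => Iff.rfl
      refine ⟨L', ⟨fun x => g (φ x), M, hM, ?_⟩, ?_⟩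
      · intro x hx y hy hxy
        rw [← hL', ← h x hx y hy]
        exact hg _ (mem_map_of_mem φ hx) _ (mem_map_of_mem φ hy) (fun e => hxy (φ.injective e))
      · intro D hD
        rw [ih φ L' K' D (fun x _ y _ => hL' x y)]
        apply hC
        rw [comps_emb φ L' K' U (fun x _ y _ => hL' x y), mem_image]
        exact ⟨D, hD, rfl⟩

/-! ### Components -/

theorem coe_comp_univ {V : Type} [Fintype V] (K : SimpleGraph V) (v : V) :
    (comp K univ v : Set V) = (K.connectedComponentMk v).supp := by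
  ext w
  rw [mem_coe, mem_comp, SimpleGraph.ConnectedComponent.mem_supp_iff,
    SimpleGraph.ConnectedComponent.eq]
  constructor
  · rintro ⟨-, h⟩
    refine SimpleGraph.Reachable.symm ?_
    induction h with
    | refl => exact SimpleGraph.Reachable.refl _
    | tail _ h2 ih => exact ih.trans h2.2.2.reachable
  · intro h
    refine ⟨mem_univ _, ?_⟩
    obtain ⟨p⟩ := h.symm
    clear h
    induction p with
    | nil => exact Relation.ReflTransGen.refl
    | cons hadj _ ih =>
      exact Relation.ReflTransGen.head ⟨mem_univ _, mem_univ _, hadj⟩ ih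

theorem FD_supp {r s d : ℕ} (hr : 1 ≤ r) {V : Type} [Fintype V] (K : SimpleGraph V) (v : V)
    [Fintype (K.connectedComponentMk v).supp] :
    FD r s d (K.induce (K.connectedComponentMk v).supp) univ ↔ FD r s d K (comp K univ v) := by
  rw [FD_emb r s hr d (Function.Embedding.subtype _) (K.induce (K.connectedComponentMk v).supp) K
    univ (fun x _ y _ => Iff.rfl)]
  have : (univ : Finset (K.connectedComponentMk v).supp).map (Function.Embedding.subtype _) =
      comp K univ v := by
    rw [← coe_inj, coe_comp_univ, coe_map, coe_univ, Set.image_univ]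
    exact Subtype.range_val
  rw [this]

/-! ### Tree-models -/

/-- a graph with a tree-model of depth `d` with `m` labels has flip-depth at most `d` with `m`
parts -/
theorem FD_tree {m : ℕ} {V : Type} [Fintype V] (lab : V → Fin m) : ∀ (d : ℕ) (E : ℕ → Setoid V)
    (S : ℕ → Fin m → Fin m → Prop) (K : SimpleGraph V) (U : Finset V),
    (∀ x ∈ U, ∀ y ∈ U, (E 0) x y) → (∀ x ∈ U, ∀ y ∈ U, (E d) x y → x = y) → Antitone E →
    (∀ i < d, ∀ x ∈ U, ∀ y ∈ U, (E i) x y → ¬ (E (i + 1)) x y →
      (K.Adj x y ↔ S i (lab x) (lab y))) → FD m 1 d K U := by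
  intro d
  induction d with
  | zero =>
    intro E S K U h0 hd _ _
    rw [FD, card_le_one]
    exact fun x hx y hy => hd x hx y hy (h0 x hx y hy)
  | succ d ih =>
    intro E S K U h0 hd hE hS
    let M : Fin m → Fin m → Prop := fun a b => S 0 a b ∧ S 0 b a
    have hM : ∀ a b, M a b → M b a := fun a b h => ⟨h.2, h.1⟩
    let K' : SimpleGraph V := Pool.Agent.TH403.FLP.flipG K lab M hM
    have hK' : ∀ x y, K'.Adj x y ↔ x ≠ y ∧ ¬ (K.Adj x y ↔ M (lab x) (lab y)) := fun x y => Iff.rfl
    refine ⟨K', ⟨lab, M, hM, fun x _ y _ hxy => ?_⟩, ?_⟩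
    · rw [hK']
      exact ⟨fun h => h.2, fun h => ⟨hxy, h⟩⟩
    · intro C hC
      have hCU := comps_sub K' U C hC
      -- joined vertices are equivalent on level `1`
      have h1 : ∀ x ∈ U, ∀ y ∈ U, K'.Adj x y → (E 1) x y := by
        intro x hx y hy hxy
        by_contra hn
        have hn' : ¬ (E 1) y x := fun h => hn ((E 1).symm h)
        have e1 := hS 0 (Nat.succ_pos d) x hx y hy (h0 x hx y hy) hn
        have e2 := hS 0 (Nat.succ_pos d) y hy x hx (h0 y hy x hx) hn'
        rw [K.adj_comm] at e2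
        apply ((hK' x y).mp hxy).2
        constructor
        · intro h
          exact ⟨e1.mp h, e2.mp h⟩
        · intro h
          exact e1.mpr h.1
      have h2 : ∀ x y, rch K' U x y → (E 1) x y := by
        intro x y hxy
        induction hxy with
        | refl => exact (E 1).refl _
        | tail _ hbc ih' => exact (E 1).trans ih' (h1 _ hbc.1 _ hbc.2.1 hbc.2.2)
      have h3 : ∀ x ∈ C, ∀ y ∈ C, (E 1) x y := by
        intro x hx y hy
        have h4 := comp_of_mem K' U C hC x hx
        rw [← h4, mem_comp] at hy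
        exact h2 x y hy.2
      apply ih (fun i => E (i + 1)) (fun i a b => ¬ (S (i + 1) a b ↔ M a b)) K' C h3
        (fun x hx y hy => hd x (hCU hx) y (hCU hy)) (fun i j hij => hE (Nat.succ_le_succ hij))
      intro i hi x hx y hy hxy hn
      have hne : x ≠ y := by
        rintro rfl
        exact hn ((E _).refl _)
      rw [hK', hS (i + 1) (by omega) x (hCU hx) y (hCU hy) hxy hn]
      exact ⟨fun h => h.2, fun h => ⟨hne, h⟩⟩

end Pool.Agent.Q215.SDs
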